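import Pool.Agent.H88.LB.Spec
import Pool.Agent.H38.ML.Spec

/-!
# [H88 LB BLK] MP_b39724_nt, LowerBound: the elements of least index of a wreath product

`blk e j g`: the permutation of `Fin n` which acts as `g` on the block `j` and trivially on the other blocks.
* `blk_ind`: `ind (blk e j g) = ind g`.
* `wr_ind`: `G = G₁ ≀ H` (`IsWreath`), `2 ≤ m`, `G₁` transitive: `indG G = indG G₁`, and the elements `≠ 1` of least index of `G` are the `blk e j g`, `g ∈ G₁`, `g ≠ 1`, of least index in `G₁`.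
  Proof. `ind` is `n` minus the number of orbits. (1) `σ ∈ G` with `h = 1`: `ind σ = ∑ j, ind (g j)` (orbits of `zpowers σ`: disjoint union over the blocks), so `≥ ind (g j)` for each `j`, and `≥` the sum of two of them. (2) `h ≠ 1`: the orbits of
  `zpowers σ` on the points over an orbit `O` of `zpowers h` on `Fin k`: at most `m` (each orbit meets the block `j₀`, `j₀ ∈ O`), so `ind σ ≥ m * ind h ≥ m` [only needed: the number of orbits of `σ` is at most `m * (number of orbits of h)`,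
  the map orbits(σ) → ..: every orbit of `σ` contains a point of a block `j₀(O)`]. (3) an element of `G₁` has index `≤ m - 1 < m`. (`H36/QA/WI2.lean` has this for `A₄`; `H38/ML/Orbs`-type lemmas `orbs`, `ind_pos`, `exists_least` in `H38/ML` are useful.)
* `wr_trans`: `G₁`, `H` transitive: `G` is transitive.
-/

set_option autoImplicit false

open scoped Classical

noncomputable section

namespace H88.LB

open H38.ML.Spec

variable {m k n : ℕ}

/-- the permutation which acts as `g` on the block `j` -/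
def blk (e : Fin m × Fin k ≃ Fin n) (j : Fin k) : Equiv.Perm (Fin m) →* Equiv.Perm (Fin n) where
  toFun g :=
    { toFun := fun y => e (if (e.symm y).2 = j then g (e.symm y).1 else (e.symm y).1, (e.symm y).2)
      invFun := fun y =>
        e (if (e.symm y).2 = j then g⁻¹ (e.symm y).1 else (e.symm y).1, (e.symm y).2)
      left_inv := fun y => by
        obtain ⟨⟨x, i⟩, rfl⟩ := e.surjective y
        by_cases h : i = j <;> simp [h]
      right_inv := fun y => by
        obtain ⟨⟨x, i⟩, rfl⟩ := e.surjective y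
        by_cases h : i = j <;> simp [h] }
  map_one' := by
    ext y
    simp
  map_mul' a b := by
    apply Equiv.ext
    intro y
    obtain ⟨⟨x, i⟩, rfl⟩ := e.surjective y
    by_cases h : i = j <;> simp [h]

theorem blk_ap (e : Fin m × Fin k ≃ Fin n) (j : Fin k) (g : Equiv.Perm (Fin m)) (x : Fin m)
    (i : Fin k) : blk e j g (e (x, i)) = e (if i = j then g x else x, i) := by
  show e (if (e.symm (e (x, i))).2 = j then g (e.symm (e (x, i))).1 else (e.symm (e (x, i))).1,
    (e.symm (e (x, i))).2) = _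
  rw [Equiv.symm_apply_apply]

private abbrev Orb {n : ℕ} (g : Equiv.Perm (Fin n)) : Type :=
  MulAction.orbitRel.Quotient (Subgroup.zpowers g) (Fin n)

private lemma orb_eq {n : ℕ} (g : Equiv.Perm (Fin n)) (x y : Fin n) :
    ((Quotient.mk'' x : Orb g) = Quotient.mk'' y) ↔ ∃ i : ℤ, (g ^ i) y = x := by
  rw [Quotient.eq'']
  constructor
  · intro h
    obtain ⟨⟨a, ha⟩, hx⟩ := MulAction.mem_orbit_iff.1 h
    obtain ⟨i, rfl⟩ := Subgroup.mem_zpowers_iff.1 ha
    exact ⟨i, hx⟩
  · rintro ⟨i, hi⟩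
    exact MulAction.mem_orbit_iff.2 ⟨⟨g ^ i, Subgroup.zpow_mem_zpowers g i⟩, hi⟩

private lemma zsem {α β : Type} (f : α → β) (a : Equiv.Perm α) (b : Equiv.Perm β)
    (h : ∀ x, b (f x) = f (a x)) (i : ℤ) (x : α) : (b ^ i) (f x) = f ((a ^ i) x) := by
  induction i using Int.induction_on generalizing x with
  | zero => simp
  | succ i ih =>
    rw [zpow_add_one, zpow_add_one, Equiv.Perm.mul_apply, Equiv.Perm.mul_apply, h, ih]
  | pred i ih =>
    rw [zpow_sub_one, zpow_sub_one, Equiv.Perm.mul_apply, Equiv.Perm.mul_apply, ← ih]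
    congr 1
    rw [Equiv.Perm.inv_eq_iff_eq, h]
    simp

private lemma orb_le {n : ℕ} (g : Equiv.Perm (Fin n)) : Nat.card (Orb g) ≤ n := by
  have h := Nat.card_le_card_of_surjective (Quotient.mk'' : Fin n → Orb g)
    Quotient.mk''_surjective
  rwa [Nat.card_eq_fintype_card (α := Fin n), Fintype.card_fin] at h

private lemma ind_pos' {n : ℕ} (g : Equiv.Perm (Fin n)) (hg : g ≠ 1) : 0 < ind g := by
  obtain ⟨x, hx⟩ : ∃ x, g x ≠ x := by
    by_contra hcon
    push Not at hcon
    exact hg (Equiv.ext hcon)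
  unfold ind
  rw [Nat.sub_pos_iff_lt]
  have : Fintype (MulAction.orbitRel.Quotient (Subgroup.zpowers g) (Fin n)) := Fintype.ofFinite _
  rw [Nat.card_eq_fintype_card]
  have h := Fintype.card_lt_of_surjective_not_injective
    (Quotient.mk'' : Fin n → MulAction.orbitRel.Quotient (Subgroup.zpowers g) (Fin n))
    Quotient.mk''_surjective ?_
  · rwa [Fintype.card_fin] at h
  · intro hinj
    apply hx
    apply hinj
    rw [Quotient.eq'']
    exact MulAction.mem_orbit_iff.2 ⟨⟨g, Subgroup.mem_zpowers g⟩, rfl⟩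

private lemma ind_lt {n : ℕ} (hn : 0 < n) (g : Equiv.Perm (Fin n)) : ind g < n := by
  have h : 0 < Nat.card (Orb g) := by
    have : Nonempty (Orb g) := ⟨Quotient.mk'' (⟨0, hn⟩ : Fin n)⟩
    exact Nat.card_pos
  show n - Nat.card (Orb g) < n
  omega

private lemma card_eq (e : Fin m × Fin k ≃ Fin n) : n = m * k := by
  have h := Fintype.card_congr e
  rw [Fintype.card_prod, Fintype.card_fin, Fintype.card_fin, Fintype.card_fin] at h
  exact h.symm

private lemma orb_sum (e : Fin m × Fin k ≃ Fin n) (σ : Equiv.Perm (Fin n))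
    (g : Fin k → Equiv.Perm (Fin m)) (hσ : ∀ x j, σ (e (x, j)) = e (g j x, j)) :
    Nat.card (Orb σ) = ∑ j, Nat.card (Orb (g j)) := by
  have hz : ∀ (i : ℤ) (x : Fin m) (j : Fin k), (σ ^ i) (e (x, j)) = e (((g j) ^ i) x, j) :=
    fun i x j => zsem (fun x => e (x, j)) (g j) σ (fun x => hσ x j) i x
  rw [← Nat.card_sigma]
  let F : (Σ j : Fin k, Orb (g j)) → Orb σ := fun w =>
    Quotient.liftOn' w.2 (fun x => (Quotient.mk'' (e (x, w.1)) : Orb σ)) (fun x y h => by
      obtain ⟨i, hi⟩ := (orb_eq (g w.1) x y).1 (Quotient.sound' h)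
      exact (orb_eq σ _ _).2 ⟨i, by rw [hz, hi]⟩)
  refine (Nat.card_congr (Equiv.ofBijective F ⟨?_, ?_⟩)).symm
  · rintro ⟨j, q⟩ ⟨j', q'⟩ h
    induction q using Quotient.inductionOn' with
    | h x =>
      induction q' using Quotient.inductionOn' with
      | h x' =>
        obtain ⟨i, hi⟩ := (orb_eq σ (e (x, j)) (e (x', j'))).1 h
        rw [hz] at hi
        have h2 := e.injective hi
        have hj : j' = j := congrArg Prod.snd h2
        subst hj
        have hx : ((g j') ^ i) x' = x := congrArg Prod.fst h2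
        have : (Quotient.mk'' x : Orb (g j')) = Quotient.mk'' x' := (orb_eq _ _ _).2 ⟨i, hx⟩
        rw [this]
  · intro q
    induction q using Quotient.inductionOn' with
    | h y =>
      obtain ⟨⟨x, j⟩, rfl⟩ := e.surjective y
      exact ⟨⟨j, Quotient.mk'' x⟩, rfl⟩

private lemma ind_sum (e : Fin m × Fin k ≃ Fin n) (σ : Equiv.Perm (Fin n))
    (g : Fin k → Equiv.Perm (Fin m)) (hσ : ∀ x j, σ (e (x, j)) = e (g j x, j)) :
    ind σ = ∑ j, ind (g j) := by
  have h1 := orb_sum e σ g hσ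
  have h2 : ∑ j, ind (g j) + ∑ j, Nat.card (Orb (g j)) = n := by
    rw [← Finset.sum_add_distrib]
    have : ∀ j ∈ Finset.univ, ind (g j) + Nat.card (Orb (g j)) = m := by
      intro j _
      have := orb_le (g j)
      show m - Nat.card (Orb (g j)) + Nat.card (Orb (g j)) = m
      omega
    rw [Finset.sum_congr rfl this, Finset.sum_const, Finset.card_univ, Fintype.card_fin,
      smul_eq_mul, card_eq e, mul_comm]
  show n - Nat.card (Orb σ) = _
  omega

private lemma ind_one' {n : ℕ} : ind (1 : Equiv.Perm (Fin n)) = 0 := by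
  have h : n ≤ Nat.card (Orb (1 : Equiv.Perm (Fin n))) := by
    have h := Nat.card_le_card_of_injective (Quotient.mk'' : Fin n → Orb (1 : Equiv.Perm (Fin n)))
      (fun x y hxy => by
        obtain ⟨i, hi⟩ := (orb_eq _ _ _).1 hxy
        rw [one_zpow] at hi
        exact hi.symm)
    rwa [Nat.card_eq_fintype_card (α := Fin n), Fintype.card_fin] at h
  show n - Nat.card (Orb (1 : Equiv.Perm (Fin n))) = 0
  omega

theorem blk_ind (e : Fin m × Fin k ≃ Fin n) (j : Fin k) (g : Equiv.Perm (Fin m)) :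
    ind (blk e j g) = ind g := by
  have h := ind_sum e (blk e j g) (fun i => if i = j then g else 1) (fun x i => by
    rw [blk_ap]
    by_cases h : i = j <;> simp [h])
  rw [h, Finset.sum_eq_single j]
  · simp
  · intro i _ hi
    simp only [if_neg hi]
    exact ind_one'
  · intro h
    exact absurd (Finset.mem_univ j) h

private lemma ind_top (e : Fin m × Fin k ≃ Fin n) (σ : Equiv.Perm (Fin n))
    (h : Equiv.Perm (Fin k)) (g : Fin k → Equiv.Perm (Fin m))
    (hσ : ∀ x j, σ (e (x, j)) = e (g j x, h j)) (hh : h ≠ 1) : m ≤ ind σ := by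
  let q : Fin n → Fin k := fun y => (e.symm y).2
  have hq : ∀ y, h (q y) = q (σ y) := by
    intro y
    obtain ⟨⟨x, j⟩, rfl⟩ := e.surjective y
    simp [q, hσ]
  have hqz : ∀ (i : ℤ) y, (h ^ i) (q y) = q ((σ ^ i) y) := fun i y => zsem q σ h hq i y
  let F : Fin m × Orb h → Orb σ := fun w => Quotient.mk'' (e (w.1, w.2.out))
  have hF : Function.Surjective F := by
    intro c
    induction c using Quotient.inductionOn' with
    | h y =>
      have h1 : (Quotient.mk'' ((Quotient.mk'' (q y) : Orb h).out) : Orb h) =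
          Quotient.mk'' (q y) := Quotient.out_eq' _
      obtain ⟨i, hi⟩ := (orb_eq h _ _).1 h1
      rw [hqz] at hi
      refine ⟨((e.symm ((σ ^ i) y)).1, Quotient.mk'' (q y)), ?_⟩
      refine (orb_eq σ _ _).2 ⟨i, ?_⟩
      have : (σ ^ i) y = e ((e.symm ((σ ^ i) y)).1, (e.symm ((σ ^ i) y)).2) := by
        rw [Prod.mk.eta, Equiv.apply_symm_apply]
      rw [this]
      exact congrArg e (Prod.ext (by simp) hi)
  have h2 := Nat.card_le_card_of_surjective F hF
  rw [Nat.card_prod, Nat.card_eq_fintype_card (α := Fin m), Fintype.card_fin] at h2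
  have h3 : 0 < k - Nat.card (Orb h) := ind_pos' h hh
  have h4 : m * Nat.card (Orb h) + m ≤ m * k := by
    have : Nat.card (Orb h) + 1 ≤ k := by omega
    calc m * Nat.card (Orb h) + m = m * (Nat.card (Orb h) + 1) := by ring
      _ ≤ m * k := Nat.mul_le_mul_left m this
  have h5 := card_eq e
  show m ≤ n - Nat.card (Orb σ)
  omega

theorem wr_ind (hm : 2 ≤ m) (hk : 0 < k) (e : Fin m × Fin k ≃ Fin n)
    (G₁ : Subgroup (Equiv.Perm (Fin m))) (hG₁ : MulAction.IsPretransitive G₁ (Fin m))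
    (H : Subgroup (Equiv.Perm (Fin k))) (G : Subgroup (Equiv.Perm (Fin n)))
    (hG : IsWreath e G₁ H G) :
    indG G = indG G₁ ∧ ∀ σ : Equiv.Perm (Fin n), (σ ∈ G ∧ σ ≠ 1 ∧ ind σ = indG G) ↔
      ∃ (j : Fin k) (g : Equiv.Perm (Fin m)), g ∈ G₁ ∧ g ≠ 1 ∧ ind g = indG G₁ ∧ σ = blk e j g := by
  -- a least element of `G₁`
  obtain ⟨g₀, hg₀, hg₀1, hg₀i⟩ : ∃ g ∈ G₁, g ≠ 1 ∧ ind g = indG G₁ := by
    have hne : {l | ∃ g ∈ G₁, g ≠ 1 ∧ ind g = l}.Nonempty := by
      obtain ⟨g, hg⟩ := hG₁.exists_smul_eq (⟨0, by omega⟩ : Fin m) (⟨1, by omega⟩ : Fin m)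
      refine ⟨ind (g : Equiv.Perm (Fin m)), g, g.2, ?_, rfl⟩
      intro h1
      have h2 : (g : Equiv.Perm (Fin m)) (⟨0, by omega⟩ : Fin m) = ⟨1, by omega⟩ := hg
      rw [h1, Equiv.Perm.one_apply] at h2
      simpa using congrArg Fin.val h2
    exact Nat.sInf_mem hne
  have hle₁ : ∀ g ∈ G₁, g ≠ 1 → indG G₁ ≤ ind g := fun g hg hg1 => Nat.sInf_le ⟨g, hg, hg1, rfl⟩
  have hlt : indG G₁ < m := by rw [← hg₀i]; exact ind_lt (by omega) g₀
  have hblk1 : ∀ (j : Fin k) (g : Equiv.Perm (Fin m)), g ≠ 1 → blk e j g ≠ 1 := by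
    intro j g hg h1
    apply hg
    ext x
    have h2 : blk e j g (e (x, j)) = e (x, j) := by rw [h1]; rfl
    rw [blk_ap, if_pos rfl] at h2
    have h3 : g x = x := congrArg Prod.fst (e.injective h2)
    rw [h3, Equiv.Perm.one_apply]
  have hblkG : ∀ (j : Fin k) (g : Equiv.Perm (Fin m)), g ∈ G₁ → blk e j g ∈ G := by
    intro j g hg
    refine (hG _).2 ⟨1, H.one_mem, fun i => if i = j then g else 1, ?_, ?_⟩
    · intro i
      by_cases h : i = j
      · simpa [h] using hg
      · simp [h]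
    · intro x i
      rw [blk_ap]
      by_cases h : i = j <;> simp [h]
  have hlow : ∀ σ ∈ G, σ ≠ 1 → indG G₁ ≤ ind σ ∧ (ind σ = indG G₁ →
      ∃ (j : Fin k) (g : Equiv.Perm (Fin m)), g ∈ G₁ ∧ g ≠ 1 ∧ ind g = indG G₁ ∧
        σ = blk e j g) := by
    intro σ hσ hσ1
    obtain ⟨h, hh, g, hg, hs⟩ := (hG σ).1 hσ
    by_cases h1 : h = 1
    · subst h1
      have hs' : ∀ x j, σ (e (x, j)) = e (g j x, j) := fun x j => by rw [hs]; rfl
      have hsum := ind_sum e σ g hs'
      obtain ⟨j, hj⟩ : ∃ j, g j ≠ 1 := by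
        by_contra hcon
        push Not at hcon
        apply hσ1
        apply Equiv.ext
        intro y
        obtain ⟨⟨x, j⟩, rfl⟩ := e.surjective y
        rw [hs', hcon j]
        rfl
      have hsplit : ind (g j) + ∑ i ∈ Finset.univ.erase j, ind (g i) = ∑ i, ind (g i) :=
        Finset.add_sum_erase Finset.univ (fun i => ind (g i)) (Finset.mem_univ j)
      have hj2 := hle₁ (g j) (hg j) hj
      refine ⟨by omega, fun heq => ?_⟩
      have hz : ∑ i ∈ Finset.univ.erase j, ind (g i) = 0 := by omega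
      have hij : ind (g j) = indG G₁ := by omega
      refine ⟨j, g j, hg j, hj, hij, ?_⟩
      apply Equiv.ext
      intro y
      obtain ⟨⟨x, i⟩, rfl⟩ := e.surjective y
      rw [hs', blk_ap]
      by_cases hi : i = j
      · subst hi; rw [if_pos rfl]
      · rw [if_neg hi]
        have h0 : ind (g i) = 0 := by
          have := (Finset.sum_eq_zero_iff.1 hz) i (Finset.mem_erase.2 ⟨hi, Finset.mem_univ i⟩)
          exact this
        have hgi : g i = 1 := by
          by_contra hne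
          have := ind_pos' (g i) hne
          omega
        rw [hgi]
        rfl
    · have hm' := ind_top e σ h g hs h1
      exact ⟨by omega, fun heq => absurd heq (by omega)⟩
  have hindG : indG G = indG G₁ := by
    apply le_antisymm
    · refine Nat.sInf_le ⟨blk e ⟨0, hk⟩ g₀, hblkG _ _ hg₀, hblk1 _ _ hg₀1, ?_⟩
      rw [blk_ind, hg₀i]
    · have hne : {l | ∃ g ∈ G, g ≠ 1 ∧ ind g = l}.Nonempty :=
        ⟨_, blk e ⟨0, hk⟩ g₀, hblkG _ _ hg₀, hblk1 _ _ hg₀1, rfl⟩
      obtain ⟨σ, hσ, hσ1, hσi⟩ := Nat.sInf_mem hne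
      have := (hlow σ hσ hσ1).1
      show indG G₁ ≤ sInf {l | ∃ g ∈ G, g ≠ 1 ∧ ind g = l}
      omega
  refine ⟨hindG, fun σ => ⟨?_, ?_⟩⟩
  · rintro ⟨hσ, hσ1, hσi⟩
    exact (hlow σ hσ hσ1).2 (by rw [hσi, hindG])
  · rintro ⟨j, g, hg, hg1, hgi, rfl⟩
    exact ⟨hblkG j g hg, hblk1 j g hg1, by rw [blk_ind, hgi, hindG]⟩

theorem wr_trans (e : Fin m × Fin k ≃ Fin n)
    (G₁ : Subgroup (Equiv.Perm (Fin m))) (hG₁ : MulAction.IsPretransitive G₁ (Fin m))
    (H : Subgroup (Equiv.Perm (Fin k))) (hH : MulAction.IsPretransitive H (Fin k))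
    (G : Subgroup (Equiv.Perm (Fin n))) (hG : IsWreath e G₁ H G) :
    MulAction.IsPretransitive G (Fin n) := by
  refine ⟨fun y z => ?_⟩
  obtain ⟨⟨x, i⟩, rfl⟩ := e.surjective y
  obtain ⟨⟨x', i'⟩, rfl⟩ := e.surjective z
  obtain ⟨a, ha⟩ := hG₁.exists_smul_eq x x'
  obtain ⟨b, hb⟩ := hH.exists_smul_eq i i'
  have ha' : (a : Equiv.Perm (Fin m)) x = x' := ha
  have hb' : (b : Equiv.Perm (Fin k)) i = i' := hb
  let σ : Equiv.Perm (Fin n) :=
    e.symm.trans ((Equiv.prodCongr (a : Equiv.Perm (Fin m)) (b : Equiv.Perm (Fin k))).trans e)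
  have hσ : ∀ x j, σ (e (x, j)) = e ((a : Equiv.Perm (Fin m)) x, (b : Equiv.Perm (Fin k)) j) := by
    intro x j
    simp [σ]
  refine ⟨⟨σ, (hG σ).2 ⟨b, b.2, fun _ => a, fun _ => a.2, hσ⟩⟩, ?_⟩
  show σ (e (x, i)) = e (x', i')
  rw [hσ, ha', hb']

end H88.LB
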