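import Pool.Agent.H88.LB.Fin
import Pool.Agent.H88.LB.Wlc
import Pool.Agent.H51.OW.Final
import Pool.Agent.H51.SN.Fin
import Pool.Agent.H38.ML.SpecBridge
import Pool.Agent.H36.RT.Final

/-!
# [H88 LB FINAL] MP_b39724_nt, LowerBound: the statement of the hand-in
-/

set_option autoImplicit false

open scoped NumberField
open scoped Classical

noncomputable section

namespace H88.LB

open H38.ML.Spec

theorem low_lc (n : ℕ) (hn : 2 ≤ n) (G : Subgroup (Equiv.Perm (Fin n)))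
    (hG : MulAction.IsPretransitive G (Fin n)) (p : ℕ) (hp : p.Prime)
    (hL : ∀ h : G, h ≠ 1 → ind (h : Equiv.Perm (Fin n)) = indG G → h ^ p = 1)
    (hC : LC p {h : G | h ≠ 1 ∧ ind (h : Equiv.Perm (Fin n)) = indG G}) : Low G :=
  lc_low H51.OW.apm4x (fun _ hp => H35.UY.apu3u hp) H51.SN.stpf n hn G hG p hp hL hC

theorem low_wr (m k n : ℕ) (hm : 2 ≤ m) (hk : 0 < k) (e : Fin m × Fin k ≃ Fin n)
    (G₁ : Subgroup (Equiv.Perm (Fin m))) (hG₁ : MulAction.IsPretransitive G₁ (Fin m))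
    (H : Subgroup (Equiv.Perm (Fin k))) (hH : MulAction.IsPretransitive H (Fin k))
    (G : Subgroup (Equiv.Perm (Fin n))) (hG : IsWreath e G₁ H G) (p : ℕ) (hp : p.Prime)
    (hL : ∀ h : G₁, h ≠ 1 → ind (h : Equiv.Perm (Fin m)) = indG G₁ → h ^ p = 1)
    (hS : SC p (Subgroup.closure {h : G₁ | h ≠ 1 ∧ ind (h : Equiv.Perm (Fin m)) = indG G₁})
      {h : G₁ | h ≠ 1 ∧ ind (h : Equiv.Perm (Fin m)) = indG G₁}) : Low G := by
  have hn : 2 ≤ n := by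
    have h1 : Fintype.card (Fin m × Fin k) = Fintype.card (Fin n) := Fintype.card_congr e
    simp only [Fintype.card_prod, Fintype.card_fin] at h1
    rw [← h1]
    exact le_trans hm (Nat.le_mul_of_pos_right _ hk)
  obtain ⟨hi1, hi2⟩ := wr_ind hm hk e G₁ hG₁ H G hG
  refine low_lc n hn G (wr_trans e G₁ hG₁ H hH G hG) p hp (fun h h1 h2 => ?_)
    (wr_lc hm hk e G₁ hG₁ H hH G hG hS)
  obtain ⟨j, g, hg1, hg2, hg3, hg4⟩ := (hi2 h).1 ⟨h.2, fun h3 => h1 (Subtype.ext h3), h2⟩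
  have h5 : (⟨g, hg1⟩ : G₁) ^ p = 1 := hL ⟨g, hg1⟩ (fun h3 => hg2 (congrArg Subtype.val h3)) hg3
  have h6 : g ^ p = 1 := congrArg Subtype.val h5
  apply Subtype.ext
  show (h : Equiv.Perm (Fin n)) ^ p = 1
  rw [hg4, ← map_pow, h6, map_one]

/-- the case `T / N` abelian -/
theorem low_ab (n : ℕ) (hn : 2 ≤ n) (G : Subgroup (Equiv.Perm (Fin n)))
    (hG : MulAction.IsPretransitive G (Fin n)) (T N : Subgroup G) (hT : T.Normal) (hN : N.Normal)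
    (hTN : ⁅T, T⁆ ≤ N) (htower : GoodTower N)
    (hL : ∀ h ∈ Lst G, h ∈ T ∧ Nat.Coprime (orderOf h) (Nat.card N)) : Low G := by
  obtain ⟨-, ⟨g₀, hg₀, hg₀'⟩, -, -, -⟩ := H38.BG.pidx_pos hn G hG
  obtain ⟨K₀, hK₀, h⟩ := H38.ML.lower_bound hn G hG T N hT hN hTN
    (H38.ML.goodTower_of_spec htower)
    (H38.ML.realizable_of_spec (H36.RT.realizable_all (G ⧸ N)))
    ⟨⟨g₀, (hL g₀ ⟨hg₀, hg₀'⟩).1, hg₀, hg₀', (hL g₀ ⟨hg₀, hg₀'⟩).2⟩⟩
  refine ⟨K₀, NumberField.of_module_finite ℚ K₀, fun K hKf hK => ?_⟩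
  obtain ⟨c, hc, B₀, hB⟩ := h K hK hKf.to_finiteDimensional
  have hβ : beta K (AlgebraicClosure ℚ) G T N = betaAll K (AlgebraicClosure ℚ) G :=
    H38.ML.beta_eq_betaAll G K T N fun g h1 h2 => hL g ⟨h1, h2⟩
  refine ⟨c, B₀, hc, fun B hBB => ?_⟩
  rw [← hβ]
  exact (hB B hBB).trans (H38.ML.nK_le_spec hn G K B)

/-- THE STATEMENT of the hand-in `LowerBound` -/
theorem lowf (n : ℕ) (hn : 2 ≤ n) (G : Subgroup (Equiv.Perm (Fin n)))
    (hG : MulAction.IsPretransitive G (Fin n)) :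
    (∀ p : ℕ, p.Prime → (∀ h ∈ Lst G, h ^ p = 1) → LC p (Lst G) → Low G) ∧
    (∀ (m k : ℕ) (_ : 2 ≤ m) (_ : 0 < k) (e : Fin m × Fin k ≃ Fin n)
      (G₁ : Subgroup (Equiv.Perm (Fin m))) (_ : MulAction.IsPretransitive G₁ (Fin m))
      (H : Subgroup (Equiv.Perm (Fin k))) (_ : MulAction.IsPretransitive H (Fin k))
      (_ : IsWreath e G₁ H G)
      (_ : (∃ j : ℕ, Subgroup.closure (Lst G₁) ≤ Subgroup.upperCentralSeries G₁ j) ∨
        ∃ p : ℕ, p.Prime ∧ (∀ h ∈ Lst G₁, h ^ p = 1) ∧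
          SC p (Subgroup.closure (Lst G₁)) (Lst G₁)), Low G) ∧
    ((∃ j : ℕ, Subgroup.closure (Lst G) ≤ Subgroup.upperCentralSeries G j) → Low G) ∧
    ((∃ j : ℕ, Subgroup.closure (Lst G) ⊓ (⊤ : Subgroup G).lowerCentralSeries j = ⊥) →
      ∃ m : ℕ, 0 < m ∧ ∀ K : IntermediateField ℚ (AlgebraicClosure ℚ), ∀ _ : NumberField K,
        (∃ z : K, IsPrimitiveRoot z m) → IsGaloisGroup K (AlgebraicClosure ℚ) G → LowK K G) ∧
    (∀ T N : Subgroup G, T.Normal → N.Normal → ⁅T, T⁆ ≤ N → GoodTower N →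
      (∀ h ∈ Lst G, h ∈ T ∧ Nat.Coprime (orderOf h) (Nat.card N)) → Low G) := by
  refine ⟨fun p hp hL hC => low_lc n hn G hG p hp (fun h h1 h2 => hL h ⟨h1, h2⟩) hC, ?_, ?_, ?_,
    fun T N hT hN hTN ht hL => low_ab n hn G hG T N hT hN hTN ht hL⟩
  · intro m k hm hk e G₁ hG₁ H hH hW hcase
    rcases hcase with ⟨j, hj⟩ | ⟨p, hp, hL, hS⟩
    · obtain ⟨p, hp, hL, hS⟩ := hyp_sc m hm G₁ hG₁ j hj
      exact low_wr m k n hm hk e G₁ hG₁ H hH G hW p hp hL hS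
    · exact low_wr m k n hm hk e G₁ hG₁ H hH G hW p hp (fun h h1 h2 => hL h ⟨h1, h2⟩) hS
  · rintro ⟨j, hj⟩
    exact (H51.OW.lowx n hn G hG _ rfl).1 ⟨j, hj⟩
  · rintro ⟨j, hj⟩
    exact (H51.OW.lowx n hn G hG _ rfl).2 ⟨j, hj⟩

end H88.LB
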