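import Pool.Agent.H38.ML.Spec

/-!
# MP_b39724_nt, LowerBound: the definitions used in the statement (together with `Pool/Agent/H38/ML/Spec.lean`)

Everything in this file is a definition; nothing is proved here. `L` is a set of elements of a group (in the main theorem the
elements of least index of a transitive group). The classes `SC` and `LC` of groups are defined by induction.
-/

noncomputable section

namespace H88.LB

/-- Higman's criterion for the abelian normal subgroup `V` of `M`: the identity of `V` is `∏ a θ a⁻¹` for an endomorphism `θ`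
of `V`, the product over the group of automorphisms `a` of `V` induced by `M`. If `V` has prime exponent `l` this says that `V`
is a projective module over `𝔽_l[M / C_M(V)]`; for example it holds if `l` does not divide the order of `M / C_M(V)`. -/
def Projective {M : Type} [Group M] (V : Subgroup M) [V.Normal] [IsMulCommutative V] : Prop :=
  open scoped IsMulCommutative in
  ∃ θ : V →* V, ∀ x : V, ∏ᶠ a : (MulAut.conjNormal : M →* MulAut V).range,
    (a : MulAut V) (θ ((a : MulAut V)⁻¹ x)) = x

/-- `V = ker π` is a good minimal normal subgroup of `M` with respect to `L`: `π : M → M / V` is surjective and splits, `V` is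
a minimal normal subgroup of `M`, an elementary abelian `l`-group for some prime `l`, projective over `𝔽_l[M / C_M(V)]`, and
if `l = p` no element of `L` centralises `V`. -/
structure Step (p : ℕ) {M Mb : Type} [Group M] [Group Mb] (L : Set M) (π : M →* Mb) : Prop where
  surjective : Function.Surjective π
  split : ∃ s : Mb →* M, ∀ x, π (s x) = x
  ne : π.ker ≠ ⊥
  minimal : ∀ U : Subgroup M, U.Normal → U ≤ π.ker → U = ⊥ ∨ U = π.ker
  comm : IsMulCommutative π.ker
  exponent : ∃ l : ℕ, l.Prime ∧ (∀ x ∈ π.ker, x ^ l = 1) ∧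
    (l = p → ∀ c ∈ L, ∃ x ∈ π.ker, c * x * c⁻¹ ≠ x)
  projective : Projective π.ker

/-- The smallest class of triples `(M, D, L)` (`D` a subgroup of the group `M`, `L` a set of elements of `M`) which contains
those with `D` a `p`-group inside a term of the upper central series of `M`, and which contains `(M, D, L)` if it contains
`(M / V, D / V, L mod V)` for a good minimal normal subgroup `V ≤ D` of `M`. -/
inductive SC (p : ℕ) : {M : Type} → [Group M] → Subgroup M → Set M → Prop
  | base {M : Type} [Group M] (D : Subgroup M) (L : Set M) (k : ℕ)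
      (hk : D ≤ Subgroup.upperCentralSeries M k) (hp : IsPGroup p D) : SC p D L
  | step {M Mb : Type} [Group M] [Group Mb] (D : Subgroup M) (L : Set M) (π : M →* Mb)
      (hπ : Step p L π) (hD : π.ker ≤ D) (h : SC p (D.map π) (π '' L)) : SC p D L

/-- The smallest class of pairs `(G, L)` (`L` a set of elements of the group `G`) such that:
(`loc`) it contains `(G, L)` if there is a subgroup `D` of `G`, generated by `L ∩ D`, such that every element of `L` is
conjugate to an element of `D`, the conjugates of `D` different from `D` commute elementwise with `D`, the group which they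
generate meets `D` in `1`, and `(N_G(D), D, L ∩ D)` is in the class `SC`;
(`step`) it contains `(G, L)` if it contains `(G / V, L mod V)` for a good minimal normal subgroup `V` of `G`. -/
inductive LC (p : ℕ) : {G : Type} → [Group G] → Set G → Prop
  | loc {G : Type} [Group G] (L : Set G) (D : Subgroup G)
      (gen : D = Subgroup.closure (L ∩ D))
      (mem : ∀ x ∈ L, ∃ g : G, g * x * g⁻¹ ∈ D)
      (com : ∀ g : G, g ∉ (Subgroup.normalizer (D : Set G) : Subgroup G) → ∀ x ∈ D, ∀ y ∈ D,
        x * (g * y * g⁻¹) = g * y * g⁻¹ * x)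
      (ind : ∀ x ∈ D, x ∈ Subgroup.closure {z : G | ∃ g : G,
        g ∉ (Subgroup.normalizer (D : Set G) : Subgroup G) ∧ ∃ y ∈ D, z = g * y * g⁻¹} → x = 1)
      (h : SC p (D.subgroupOf (Subgroup.normalizer (D : Set G)))
        {x : (Subgroup.normalizer (D : Set G) : Subgroup G) | (x : G) ∈ L ∧ (x : G) ∈ D}) : LC p L
  | step {G Gb : Type} [Group G] [Group Gb] (L : Set G) (π : G →* Gb)
      (hπ : Step p L π) (h : LC p (π '' L)) : LC p L

/-- `G` is the wreath product of `G₁` and `H` in its imprimitive action: the points are the `e (x, j)`, `x ∈ Fin m` a point of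
`G₁` and `j ∈ Fin k` a point of `H`. -/
def IsWreath {m k n : ℕ} (e : Fin m × Fin k ≃ Fin n) (G₁ : Subgroup (Equiv.Perm (Fin m)))
    (H : Subgroup (Equiv.Perm (Fin k))) (G : Subgroup (Equiv.Perm (Fin n))) : Prop :=
  ∀ σ : Equiv.Perm (Fin n), σ ∈ G ↔ ∃ h ∈ H, ∃ g : Fin k → Equiv.Perm (Fin m),
    (∀ j, g j ∈ G₁) ∧ ∀ x j, σ (e (x, j)) = e (g j x, h j)

open H38.ML.Spec

/-- The elements of least index of `G`. -/
abbrev Lst {n : ℕ} (G : Subgroup (Equiv.Perm (Fin n))) : Set G :=
  {h : G | h ≠ 1 ∧ ind (h : Equiv.Perm (Fin n)) = indG G}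

/-- The lower bound of exactly the conjectured order for `G` over `K`: there is `c > 0` with
`n_K(G,B) ≥ c B^(1/ind(G)) (log B)^(β_K(G)-1)` for all large `B`. -/
def LowK (K : IntermediateField ℚ (AlgebraicClosure ℚ)) [NumberField K] {n : ℕ}
    (G : Subgroup (Equiv.Perm (Fin n))) : Prop :=
  ∃ c B₀ : ℝ, 0 < c ∧ ∀ B : ℝ, B₀ ≤ B →
    ((⌈c * B ^ (1 / (indG G : ℝ)) *
      Real.log B ^ (betaAll K (AlgebraicClosure ℚ) G - 1)⌉₊ : ℕ) : ℕ∞) ≤
        nK K (AlgebraicClosure ℚ) G B

/-- The lower bound over all sufficiently large number fields. -/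
def Low {n : ℕ} (G : Subgroup (Equiv.Perm (Fin n))) : Prop :=
  ∃ K₀ : IntermediateField ℚ (AlgebraicClosure ℚ), NumberField K₀ ∧
    ∀ K : IntermediateField ℚ (AlgebraicClosure ℚ), ∀ _ : NumberField K, K₀ ≤ K → LowK K G

end H88.LB
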