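import Pool.Agent.H88.LB.Spec
import Pool.Agent.H88.LH.Ind
import Pool.Agent.H88.LH.Fhy
import Pool.Agent.H35.SN.Fs
import Pool.Agent.H35.SN.Bs

/-!
# [H88 LB CLS] MP_b39724_nt, LowerBound: the classes `SC` and `LC`

* `sc_fth`: `SC p D L` gives `FTH D c`, `L` the union of the classes of `c`. `lc_base`: `LC p L` gives `BASE L N`.
-/

set_option autoImplicit false

open scoped NumberField
open IsDedekindDomain H38.ML
open scoped Classical

noncomputable section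

namespace H88.LB

open H63.MA H38.BB H38.BG H77.PC3 H77.PLF H51.HD H51.HC H51.F3 H51.F4 H88.LH H35.SN

theorem step_STEP {p : ℕ} {M Mb : Type} [Group M] [Group Mb] {L : Set M} {π : M →* Mb}
    (h : Step p L π) : ∃ l : ℕ, STEP l π ∧ (l = p → ∀ c ∈ L, ∃ x ∈ π.ker, c * x * c⁻¹ ≠ x) := by
  obtain ⟨l, hl, he, hlp⟩ := h.exponent
  exact ⟨l, ⟨hl, h.surjective, h.ne, h.comm, he, h.minimal, h.split, h.projective⟩, hlp⟩

/-- the classes in the quotient -/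
theorem img_cls {p N : ℕ} {M Mb : Type} [Group M] [Group Mb] {L : Set M} {π : M →* Mb}
    (hs : Function.Surjective π) (c : CL p N M) (cb : CL p N Mb) (hcb : ∀ i, cb.g i = π (c.g i))
    (hL : L = {x | ∃ i, IsConj x (c.g i)}) : π '' L = {x | ∃ i, IsConj x (cb.g i)} := by
  ext y
  constructor
  · rintro ⟨x, hx, rfl⟩
    rw [hL] at hx
    obtain ⟨i, hi⟩ := hx
    refine ⟨i, ?_⟩
    rw [hcb]
    exact MonoidHom.map_isConj π hi
  · rintro ⟨i, hi⟩
    rw [hcb] at hi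
    obtain ⟨g, hg⟩ := isConj_iff.1 hi.symm
    obtain ⟨g', rfl⟩ := hs g
    refine ⟨g' * c.g i * g'⁻¹, ?_, ?_⟩
    · rw [hL]
      exact ⟨i, (isConj_iff.2 ⟨g', rfl⟩ : IsConj (c.g i) _).symm⟩
    · rw [← hg, map_mul, map_mul, map_inv]

theorem sc_fth (hA : ∀ p : ℕ, p.Prime → APm4 p) (hU : ∀ p : ℕ, p.Prime → APu3 p) (hst : STP)
    {p : ℕ} (hp : p.Prime) {M : Type} [Group M] {D : Subgroup M} {L : Set M} (h : SC p D L) :
    ∀ [Finite M] [D.Normal] (N : ℕ) (_ : 1 ≤ N) (c : CL p N M)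
      (_ : L = {x | ∃ i, IsConj x (c.g i)})
      (_ : D = Subgroup.normalClosure (Set.range c.g)), FTH D c := by
  induction h with
  | base D L k hk hP =>
    intro _ _ N hN c _ hD
    refine fth_hyp hA hU hp hN D c (fun x hx => ?_) k hk hD
    obtain ⟨j, hj⟩ := hP ⟨x, hx⟩
    exact ⟨j, congrArg Subtype.val hj⟩
  | @step M Mb _ _ D L π hπ hker h ih =>
    intro _ _ N hN c hL hD
    obtain ⟨l, hS, hlp⟩ := step_STEP hπ
    have hty : l ≠ p ∨ ∀ i, ∃ x ∈ π.ker, c.g i * x * (c.g i)⁻¹ ≠ x := by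
      by_cases hl : l = p
      · refine Or.inr fun i => hlp hl _ ?_
        rw [hL]
        exact ⟨i, IsConj.refl _⟩
      · exact Or.inl hl
    obtain ⟨cb, hcb⟩ := clb hS hp c hty
    have : Finite Mb := Finite.of_surjective π hS.sur
    have hDn : (D.map π).Normal := Subgroup.Normal.map inferInstance π hS.sur
    refine fth_step hst hp hS D (D.map π) rfl hker c cb hcb hty ?_
    refine ih N hN cb (img_cls hS.sur c cb hcb hL) ?_
    rw [hD, Subgroup.map_normalClosure _ _ hS.sur]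
    congr 1
    ext y
    constructor
    · rintro ⟨_, ⟨i, rfl⟩, rfl⟩
      exact ⟨i, hcb i⟩
    · rintro ⟨i, rfl⟩
      exact ⟨_, ⟨i, rfl⟩, (hcb i).symm⟩

/-- the group data for `LC.loc` -/
theorem loc_LY {p N : ℕ} {G : Type} [Group G] (L : Set G) (c : CL p N G)
    (hL : L = {x | ∃ i, IsConj x (c.g i)})
    (hpw : ∀ x ∈ L, ∀ j : ℕ, ¬ p ∣ j → x ^ j ∈ L) (D : Subgroup G)
    (gen : D = Subgroup.closure (L ∩ D)) (mem : ∀ x ∈ L, ∃ g : G, g * x * g⁻¹ ∈ D)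
    (com : ∀ g : G, g ∉ (Subgroup.normalizer (D : Set G) : Subgroup G) → ∀ x ∈ D, ∀ y ∈ D,
        x * (g * y * g⁻¹) = g * y * g⁻¹ * x)
    (ind : ∀ x ∈ D, x ∈ Subgroup.closure {z : G | ∃ g : G,
        g ∉ (Subgroup.normalizer (D : Set G) : Subgroup G) ∧ ∃ y ∈ D, z = g * y * g⁻¹} → x = 1) :
    ∃ Y : LY p N G, Y.D = D ∧ Y.C = L := by
  have hg : ∀ i, ∃ g : G, g * c.g i * g⁻¹ ∈ D := fun i => mem _ (by
    rw [hL]
    exact ⟨i, IsConj.refl _⟩)
  choose u hu using hg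
  have hc : ∀ i, IsConj (c.g i) (u i * c.g i * (u i)⁻¹) := fun i => isConj_iff.2 ⟨u i, rfl⟩
  have hLm : ∀ x, x ∈ L ↔ ∃ i, IsConj x (u i * c.g i * (u i)⁻¹) := by
    intro x
    rw [hL]
    constructor
    · rintro ⟨i, hi⟩
      exact ⟨i, hi.trans (hc i)⟩
    · rintro ⟨i, hi⟩
      exact ⟨i, hi.trans (hc i).symm⟩
  refine ⟨⟨⟨fun i => u i * c.g i * (u i)⁻¹, fun i => ?_, fun i h => ?_, fun i j h => ?_⟩,
    D, com, ind, hu, ?_, fun i j hj => ?_⟩, rfl, ?_⟩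
  · rw [conj_pow, c.pow, mul_one, mul_inv_cancel]
  · refine c.ne i ?_
    have h1 : IsConj (c.g i) 1 := by
      rw [← h]
      exact hc i
    exact isConj_one_left.1 h1
  · exact c.uni i j ((hc i).trans (h.trans (hc j).symm))
  · rw [gen]
    congr 1
    ext x
    constructor
    · rintro ⟨h1, h2⟩
      refine ⟨?_, (hLm x).1 h1⟩
      rw [← gen]
      exact h2
    · rintro ⟨h1, h2⟩
      rw [← gen] at h1
      exact ⟨(hLm x).2 h2, h1⟩
  · exact (hLm _).1 (hpw _ ((hLm _).2 ⟨i, IsConj.refl _⟩) j hj)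
  · ext x
    exact (hLm x).symm

/-- the classes in the normaliser -/
theorem loc_cM {p N : ℕ} {G : Type} [Group G] (Y : LY p N G) :
    {x : Y.M | (x : G) ∈ Y.C ∧ (x : G) ∈ Y.D} = {x | ∃ i, IsConj x (Y.cM.g i)} ∧
      Y.D.subgroupOf Y.M = Subgroup.normalClosure (Set.range Y.cM.g) := by
  have h1 : ∀ x : Y.M, (x : G) ∈ Y.C → (x : G) ∈ Y.D → ∃ i, IsConj x (Y.cM.g i) := by
    rintro x ⟨i, hi⟩ hx
    obtain ⟨g, hg⟩ := isConj_iff.1 hi.symm
    by_cases hgM : g ∈ Y.M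
    · exact ⟨i, (isConj_iff.2 ⟨⟨g, hgM⟩, Subtype.ext hg⟩ : IsConj (Y.cM.g i) x).symm⟩
    · exfalso
      have h3 := Y.ind x hx (Subgroup.subset_closure ⟨g, hgM, Y.cl.g i, Y.mem i, hg.symm⟩)
      rw [h3] at hi
      exact Y.cl.ne i (isConj_one_right.1 hi)
  have h2 : ∀ (x : Y.M) (i : Fin N), IsConj x (Y.cM.g i) → (x : G) ∈ Y.C ∧ (x : G) ∈ Y.D := by
    intro x i hi
    obtain ⟨g, hg⟩ := isConj_iff.1 hi.symm
    have hg' : (g : G) * Y.cl.g i * (g : G)⁻¹ = x := congrArg Subtype.val hg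
    refine ⟨⟨i, ?_⟩, ?_⟩
    · exact (isConj_iff.2 ⟨(g : G), hg'⟩ : IsConj (Y.cl.g i) (x : G)).symm
    · rw [← hg']
      exact Y.nrm g.2 (Y.mem i)
  refine ⟨?_, le_antisymm ?_ ?_⟩
  · ext x
    constructor
    · rintro ⟨a, b⟩
      exact h1 x a b
    · rintro ⟨i, hi⟩
      exact h2 x i hi
  · have h3 : Y.D ≤ (Subgroup.normalClosure (Set.range Y.cM.g)).map Y.M.subtype := by
      conv_lhs => rw [Y.gen]
      rw [Subgroup.closure_le]
      rintro x ⟨hx, hi⟩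
      obtain ⟨i, hi⟩ := h1 ⟨x, Y.D_le hx⟩ hi hx
      refine ⟨⟨x, Y.D_le hx⟩, ?_, rfl⟩
      obtain ⟨g, hg⟩ := isConj_iff.1 hi.symm
      rw [← hg]
      exact Subgroup.normalClosure_normal.conj_mem _
        (Subgroup.subset_normalClosure (Set.mem_range_self i)) g
    intro x hx
    obtain ⟨y, hy, hyx⟩ := h3 hx
    have h4 : y = x := Subtype.ext hyx
    rwa [← h4]
  · refine Subgroup.normalClosure_le_normal ?_
    rintro _ ⟨i, rfl⟩
    exact Y.mem i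

theorem lc_base (hA : ∀ p : ℕ, p.Prime → APm4 p) (hU : ∀ p : ℕ, p.Prime → APu3 p) (hst : STP)
    {p : ℕ} (hp : p.Prime) {G : Type} [Group G] {L : Set G} (h : LC p L) :
    ∀ [Finite G] (N : ℕ) (_ : 1 ≤ N) (c : CL p N G) (_ : L = {x | ∃ i, IsConj x (c.g i)})
      (_ : ∀ x ∈ L, ∀ j : ℕ, ¬ p ∣ j → x ^ j ∈ L), BASE L N := by
  induction h with
  | loc L D gen mem com ind h =>
    intro _ N hN c hL hpw
    obtain ⟨Y, hYD, hYC⟩ := loc_LY L c hL hpw D gen mem com ind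
    subst hYD
    rw [← hYC]
    refine lh_base Y hp ?_
    obtain ⟨h1, h2⟩ := loc_cM Y
    refine sc_fth hA hU hst hp h N hN Y.cM ?_ h2
    rw [← h1, hYC]
  | @step G Gb _ _ L π hπ h ih =>
    intro _ N hN c hL hpw
    obtain ⟨l, hS, hlp⟩ := step_STEP hπ
    have hty : l ≠ p ∨ ∀ i, ∃ x ∈ π.ker, c.g i * x * (c.g i)⁻¹ ≠ x := by
      by_cases hl : l = p
      · refine Or.inr fun i => hlp hl _ ?_
        rw [hL]
        exact ⟨i, IsConj.refl _⟩
      · exact Or.inl hl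
    obtain ⟨cb, hcb⟩ := clb hS hp c hty
    have : Finite Gb := Finite.of_surjective π hS.sur
    refine base_step hst hp hS L (π '' L) rfl ?_ ?_ ?_ (ih N hN cb (img_cls hS.sur c cb hcb hL) ?_)
    · intro x hx
      rw [hL] at hx
      obtain ⟨i, hi⟩ := hx
      obtain ⟨g, rfl⟩ := isConj_iff.1 hi.symm
      rw [conj_pow, c.pow, mul_one, mul_inv_cancel]
    · intro x hx g
      rw [hL] at hx ⊢
      obtain ⟨i, hi⟩ := hx
      exact ⟨i, IsConj.trans (isConj_iff.2 ⟨g, rfl⟩ : IsConj x _).symm hi⟩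
    · by_cases hl : l = p
      · exact Or.inr fun x hx => hlp hl x hx
      · exact Or.inl hl
    · rintro _ ⟨x, hx, rfl⟩ j hj
      exact ⟨x ^ j, hpw x hx j hj, map_pow π x j⟩

end H88.LB
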