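import Pool.Agent.H88.LB.Spec

/-!
# [H88 LB PRD] MP_b39724_nt, LowerBound: the class `SC` and direct factors

`sc_dir`: `M = s(M₁) × ker r` (`r : M → M₁` with the section `s`, `s(M₁)` commutes with `ker r`); `SC p D₁ L₁` gives `SC p (D₁.map s) (s '' L₁)`.

Proof. It is enough to treat `M = M₁ × A` (`sc_prd`: `SC p D L` gives `SC p (D.prod ⊥) {x | x.1 ∈ L ∧ x.2 = 1}`, or with `D.map (MonoidHom.inl M₁ A)` and `inl '' L`) and an isomorphism (`sc_iso`: for `e : M ≃* M'`: `SC p (D.map e) (e '' L)`),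
`M ≃* M₁ × r.ker`, `x ↦ (r x, s (r x)⁻¹ * x)`. Both by induction on `SC`:
* base: `x ∈ Z_k(M₁)` gives `(x, 1) ∈ Z_k(M₁ × A)` by induction on `k` (`Subgroup.mem_upperCentralSeries_succ_iff`); `IsPGroup.map`.
* step `π : M₁ → Mb`: `π' = π.prodMap (MonoidHom.id A) : M₁ × A → Mb × A`, `ker π' = ker π × 1`. `Step p L' π'`: surjective; `split`: `s.prodMap id`; `minimal`: for `U` normal in `M₁ × A`, `U ≤ ker π × 1`, use
  `U.comap (inl)` (normal in `M₁`); `comm`, `exponent`: coordinates; `projective`: the isomorphism `ker π ≃* ker π'` carries `conjNormal.range` to `conjNormal.range` (an element `(m, a)` acts as `m`);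
  transport `θ` and the `finprod` (`finprod_eq_of_bijective` or `finprod_comp` with the bijection of the ranges). Then `ih` for `Mb`, with `(D.map inl).map π' = (D.map π).map inl` and `π' '' (inl '' L) = inl '' (π '' L)`.
-/

set_option autoImplicit false

open scoped Classical

noncomputable section

namespace H88.LB

section

open scoped IsMulCommutative

private theorem proj_tr {M M₁ : Type} [Group M] [Group M₁] (r : M →* M₁) (hr : Function.Surjective r)
    (V₁ : Subgroup M₁) [V₁.Normal] [IsMulCommutative V₁] (V : Subgroup M) [V.Normal] [IsMulCommutative V]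
    (φ : V₁ ≃* V) (hφ : ∀ (m : M) (v : V₁), φ (MulAut.conjNormal (r m) v) = MulAut.conjNormal m (φ v))
    (h : Projective V₁) : Projective V := by
  obtain ⟨θ, hθ⟩ := h
  refine ⟨(φ.toMonoidHom.comp θ).comp φ.symm.toMonoidHom, fun x => ?_⟩
  have hmem : ∀ a : (MulAut.conjNormal : M₁ →* MulAut V₁).range,
      MulAut.congr φ (a : MulAut V₁) ∈ (MulAut.conjNormal : M →* MulAut V).range := by
    rintro ⟨a, m₁, rfl⟩
    obtain ⟨m, rfl⟩ := hr m₁
    refine ⟨m, ?_⟩
    apply MulEquiv.ext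
    intro v
    have h1 := hφ m (φ.symm v)
    rw [MulEquiv.apply_symm_apply] at h1
    exact h1.symm
  have hbij : Function.Bijective (fun a : (MulAut.conjNormal : M₁ →* MulAut V₁).range =>
      (⟨MulAut.congr φ (a : MulAut V₁), hmem a⟩ : (MulAut.conjNormal : M →* MulAut V).range)) := by
    constructor
    · intro a b hab
      have h1 : MulAut.congr φ (a : MulAut V₁) = MulAut.congr φ (b : MulAut V₁) := congrArg Subtype.val hab
      exact Subtype.ext ((MulAut.congr φ).injective h1)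
    · rintro ⟨b, m, rfl⟩
      refine ⟨⟨MulAut.conjNormal (r m), r m, rfl⟩, Subtype.ext ?_⟩
      apply MulEquiv.ext
      intro v
      have h1 := hφ m (φ.symm v)
      rw [MulEquiv.apply_symm_apply] at h1
      exact h1
  have key := finprod_eq_of_bijective (M := V)
    (f := fun a : (MulAut.conjNormal : M₁ →* MulAut V₁).range =>
      φ ((a : MulAut V₁) (θ ((a : MulAut V₁)⁻¹ (φ.symm x)))))
    (g := fun b : (MulAut.conjNormal : M →* MulAut V).range =>
      (b : MulAut V) (((φ.toMonoidHom.comp θ).comp φ.symm.toMonoidHom) ((b : MulAut V)⁻¹ x)))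
    (fun a => ⟨MulAut.congr φ (a : MulAut V₁), hmem a⟩) hbij (fun a => by
      show φ ((a : MulAut V₁) (θ ((a : MulAut V₁)⁻¹ (φ.symm x)))) =
        (MulAut.congr φ (a : MulAut V₁)) (φ (θ (φ.symm ((MulAut.congr φ (a : MulAut V₁))⁻¹ x))))
      rw [← map_inv]
      show φ ((a : MulAut V₁) (θ ((a : MulAut V₁)⁻¹ (φ.symm x)))) =
        φ ((a : MulAut V₁) (φ.symm (φ (θ (φ.symm (φ ((a : MulAut V₁)⁻¹ (φ.symm x))))))))
      rw [MulEquiv.symm_apply_apply, MulEquiv.symm_apply_apply])
  rw [← key, ← MulEquiv.map_finprod, hθ, MulEquiv.apply_symm_apply]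

end

private theorem step_tr {p : ℕ} {M M₁ Mb : Type} [Group M] [Group M₁] [Group Mb] (r : M →* M₁) (s : M₁ →* M)
    (hrs : ∀ x, r (s x) = x) (hc : ∀ x y, r y = 1 → s x * y = y * s x) (π : M₁ →* Mb) (π' : M →* Mb × r.ker)
    (hπ1 : ∀ m, (π' m).1 = π (r m)) (hπ2 : ∀ m, ((π' m).2 : M) = (s (r m))⁻¹ * m) {L₁ : Set M₁}
    (h : Step p L₁ π) : Step p (s '' L₁) π' := by
  have hsi : Function.Injective s := fun x y hxy => by rw [← hrs x, hxy, hrs]
  have hker : ∀ m : M, m ∈ π'.ker ↔ ∃ v ∈ π.ker, s v = m := by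
    intro m
    rw [MonoidHom.mem_ker]
    constructor
    · intro h1
      have h2 : (π' m).1 = 1 := by rw [h1]; rfl
      have h3 : ((π' m).2 : M) = 1 := by rw [h1]; rfl
      rw [hπ1] at h2
      rw [hπ2] at h3
      exact ⟨r m, h2, inv_mul_eq_one.1 h3⟩
    · rintro ⟨v, hv, rfl⟩
      apply Prod.ext
      · rw [hπ1, hrs]
        exact hv
      · apply Subtype.ext
        rw [hπ2, hrs, inv_mul_cancel]
        rfl
  have hdec : ∀ (m : M) (x : M₁), m * s x * m⁻¹ = s (r m * x * (r m)⁻¹) := by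
    intro m x
    have h1 : r ((s (r m))⁻¹ * m) = 1 := by rw [map_mul, map_inv, hrs, inv_mul_cancel]
    have h2 := hc x _ h1
    have h3 : m = s (r m) * ((s (r m))⁻¹ * m) := by rw [mul_inv_cancel_left]
    have h4 : ((s (r m))⁻¹ * m) * s x * ((s (r m))⁻¹ * m)⁻¹ = s x := by
      rw [← h2, mul_inv_cancel_right]
    rw [map_mul, map_mul, map_inv]
    calc m * s x * m⁻¹ = s (r m) * (((s (r m))⁻¹ * m) * s x * ((s (r m))⁻¹ * m)⁻¹) * (s (r m))⁻¹ := by group
      _ = s (r m) * s x * (s (r m))⁻¹ := by rw [h4]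
  have := h.comm
  have hcomm : IsMulCommutative π'.ker := by
    refine ⟨⟨?_⟩⟩
    rintro ⟨a, ha⟩ ⟨b, hb⟩
    obtain ⟨v, hv, rfl⟩ := (hker a).1 ha
    obtain ⟨w, hw, rfl⟩ := (hker b).1 hb
    apply Subtype.ext
    show s v * s w = s w * s v
    rw [← map_mul, ← map_mul]
    have h5 : (⟨v, hv⟩ : π.ker) * ⟨w, hw⟩ = ⟨w, hw⟩ * ⟨v, hv⟩ := h.comm.is_comm.comm _ _
    exact congrArg s (congrArg Subtype.val h5)
  have := hcomm
  refine ⟨?_, ?_, ?_, ?_, hcomm, ?_, ?_⟩
  · rintro ⟨b, a, ha⟩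
    obtain ⟨m₁, hm₁⟩ := h.surjective b
    have hra : r a = 1 := ha
    have hr1 : r (s m₁ * a) = m₁ := by rw [map_mul, hrs, hra, mul_one]
    refine ⟨s m₁ * a, Prod.ext ?_ (Subtype.ext ?_)⟩
    · rw [hπ1, hr1, hm₁]
    · rw [hπ2, hr1, inv_mul_cancel_left]
  · obtain ⟨t, ht⟩ := h.split
    refine ⟨{ toFun := fun x => s (t x.1) * (x.2 : M), map_one' := by simp, map_mul' := ?_ }, ?_⟩
    · intro x y
      have h1 := hc (t y.1) (x.2 : M) x.2.2
      show s (t (x.1 * y.1)) * ((x.2 : M) * (y.2 : M)) = s (t x.1) * (x.2 : M) * (s (t y.1) * (y.2 : M))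
      rw [map_mul, map_mul]
      calc s (t x.1) * s (t y.1) * ((x.2 : M) * (y.2 : M)) =
          s (t x.1) * (s (t y.1) * (x.2 : M)) * (y.2 : M) := by group
        _ = s (t x.1) * ((x.2 : M) * s (t y.1)) * (y.2 : M) := by rw [h1]
        _ = s (t x.1) * (x.2 : M) * (s (t y.1) * (y.2 : M)) := by group
    · intro x
      have hr1 : r (s (t x.1) * (x.2 : M)) = t x.1 := by
        have : r (x.2 : M) = 1 := x.2.2
        rw [map_mul, hrs, this, mul_one]
      refine Prod.ext ?_ (Subtype.ext ?_)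
      · show (π' (s (t x.1) * (x.2 : M))).1 = x.1
        rw [hπ1, hr1, ht]
      · show ((π' (s (t x.1) * (x.2 : M))).2 : M) = x.2
        rw [hπ2, hr1, inv_mul_cancel_left]
  · intro h0
    apply h.ne
    rw [eq_bot_iff]
    intro v hv
    have h1 : s v ∈ π'.ker := (hker _).2 ⟨v, hv, rfl⟩
    rw [h0, Subgroup.mem_bot] at h1
    rw [Subgroup.mem_bot]
    exact hsi (by rw [h1, map_one])
  · intro U hU hUk
    have hn : (U.comap s).Normal := hU.comap s
    have hle : U.comap s ≤ π.ker := by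
      intro x hx
      obtain ⟨v, hv, h1⟩ := (hker _).1 (hUk hx)
      rw [← hsi h1]
      exact hv
    have hU2 : ∀ m ∈ U, ∃ v ∈ U.comap s, s v = m := by
      intro m hm
      obtain ⟨v, hv, h1⟩ := (hker _).1 (hUk hm)
      refine ⟨v, ?_, h1⟩
      show s v ∈ U
      rw [h1]
      exact hm
    rcases h.minimal _ hn hle with h1 | h1
    · left
      rw [eq_bot_iff]
      intro m hm
      obtain ⟨v, hv, rfl⟩ := hU2 m hm
      rw [h1, Subgroup.mem_bot] at hv
      rw [hv, map_one]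
      exact Subgroup.one_mem _
    · right
      apply le_antisymm hUk
      intro m hm
      obtain ⟨v, hv, rfl⟩ := (hker _).1 hm
      rw [← h1] at hv
      exact hv
  · obtain ⟨l, hl, h1, h2⟩ := h.exponent
    refine ⟨l, hl, ?_, ?_⟩
    · intro x hx
      obtain ⟨v, hv, rfl⟩ := (hker _).1 hx
      rw [← map_pow, h1 v hv, map_one]
    · rintro hlp _ ⟨c, hc1, rfl⟩
      obtain ⟨x, hx, hne⟩ := h2 hlp c hc1
      refine ⟨s x, (hker _).2 ⟨x, hx, rfl⟩, ?_⟩
      intro h3
      apply hne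
      apply hsi
      rw [map_mul, map_mul, map_inv]
      exact h3
  · let φ₀ : π.ker →* π'.ker :=
      { toFun := fun v => ⟨s v, (hker _).2 ⟨v, v.2, rfl⟩⟩
        map_one' := Subtype.ext (map_one s)
        map_mul' := fun v w => Subtype.ext (map_mul s _ _) }
    have hφ₀ : Function.Bijective φ₀ :=
      ⟨fun v w hvw => Subtype.ext (hsi (congrArg Subtype.val hvw)), fun m => by
        obtain ⟨v, hv, h1⟩ := (hker _).1 m.2
        exact ⟨⟨v, hv⟩, Subtype.ext h1⟩⟩
    let φ : π.ker ≃* π'.ker := MulEquiv.ofBijective φ₀ hφ₀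
    refine proj_tr r (fun x => ⟨s x, hrs x⟩) π.ker π'.ker φ (fun m v => ?_) h.projective
    apply Subtype.ext
    rw [MulAut.conjNormal_apply]
    show s ((MulAut.conjNormal (r m) v : π.ker) : M₁) = m * s v * m⁻¹
    rw [MulAut.conjNormal_apply, hdec]

open scoped commutatorElement in
private theorem ucs_tr {M M₁ : Type} [Group M] [Group M₁] (r : M →* M₁) (s : M₁ →* M)
    (hrs : ∀ x, r (s x) = x) (hc : ∀ x y, r y = 1 → s x * y = y * s x) (k : ℕ) :
    ∀ x, x ∈ Subgroup.upperCentralSeries M₁ k → s x ∈ Subgroup.upperCentralSeries M k := by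
  induction k with
  | zero =>
    intro x hx
    rw [Subgroup.upperCentralSeries_zero, Subgroup.mem_bot] at hx ⊢
    rw [hx, map_one]
  | succ k ih =>
    intro x hx
    rw [Subgroup.mem_upperCentralSeries_succ_iff] at hx ⊢
    intro m
    have h1 := ih _ (hx (r m))
    have h2 : r ((s (r m))⁻¹ * m) = 1 := by rw [map_mul, map_inv, hrs, inv_mul_cancel]
    have h3 := hc x⁻¹ _ h2
    have h4 : ⁅s x, m⁆ = s ⁅x, r m⁆ := by
      rw [commutatorElement_def, commutatorElement_def, map_mul, map_mul, map_mul, map_inv, map_inv]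
      rw [map_inv] at h3
      calc s x * m * (s x)⁻¹ * m⁻¹ = s x * s (r m) * (((s (r m))⁻¹ * m) * (s x)⁻¹) * m⁻¹ := by group
        _ = s x * s (r m) * ((s x)⁻¹ * ((s (r m))⁻¹ * m)) * m⁻¹ := by rw [h3]
        _ = s x * s (r m) * (s x)⁻¹ * (s (r m))⁻¹ := by group
    rw [h4]
    exact h1

theorem sc_dir {p : ℕ} {M M₁ : Type} [Group M] [Group M₁] (r : M →* M₁) (s : M₁ →* M)
    (hrs : ∀ x, r (s x) = x) (hc : ∀ x y, r y = 1 → s x * y = y * s x) {D₁ : Subgroup M₁}
    {L₁ : Set M₁} (h : SC p D₁ L₁) : SC p (D₁.map s) (s '' L₁) := by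
  induction h generalizing M with
  | base D L k hk hp =>
    refine SC.base _ _ k ?_ (hp.map s)
    rintro _ ⟨x, hx, rfl⟩
    exact ucs_tr r s hrs hc k x (hk hx)
  | @step Mo Mb _ _ D L π hπ hD h ih =>
    let q : M →* r.ker :=
      { toFun := fun m => ⟨(s (r m))⁻¹ * m, by
          rw [MonoidHom.mem_ker, map_mul, map_inv, hrs, inv_mul_cancel]⟩
        map_one' := Subtype.ext (by simp)
        map_mul' := fun m n => Subtype.ext (by
          have h1 : r ((s (r m))⁻¹ * m) = 1 := by rw [map_mul, map_inv, hrs, inv_mul_cancel]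
          have h2 := hc (r n)⁻¹ _ h1
          rw [map_inv] at h2
          show (s (r (m * n)))⁻¹ * (m * n) = (s (r m))⁻¹ * m * ((s (r n))⁻¹ * n)
          rw [map_mul, map_mul, mul_inv_rev]
          calc (s (r n))⁻¹ * (s (r m))⁻¹ * (m * n) = ((s (r n))⁻¹ * ((s (r m))⁻¹ * m)) * n := by group
            _ = (((s (r m))⁻¹ * m) * (s (r n))⁻¹) * n := by rw [h2]
            _ = (s (r m))⁻¹ * m * ((s (r n))⁻¹ * n) := by group) }
    let π' : M →* Mb × r.ker := (π.comp r).prod q
    have h1 := ih (M := Mb × r.ker) (MonoidHom.fst _ _) (MonoidHom.inl _ _) (fun x => rfl) (fun x y hy => by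
      obtain ⟨b, a⟩ := y
      have hb : b = 1 := hy
      subst hb
      show ((x, 1) : Mb × r.ker) * (1, a) = (1, a) * (x, 1)
      rw [Prod.mk_mul_mk, Prod.mk_mul_mk, one_mul, mul_one, one_mul, mul_one])
    have hs : Step p (s '' L) π' := step_tr r s hrs hc π π' (fun _ => rfl) (fun _ => rfl) hπ
    have hval : ∀ x, π' (s x) = MonoidHom.inl Mb r.ker (π x) := by
      intro x
      refine Prod.ext ?_ (Subtype.ext ?_)
      · show π (r (s x)) = π x
        rw [hrs]
      · show (s (r (s x)))⁻¹ * s x = 1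
        rw [hrs, inv_mul_cancel]
    have hD' : π'.ker ≤ D.map s := by
      intro m hm
      have h3 : (π' m).1 = 1 := by rw [MonoidHom.mem_ker.1 hm]; rfl
      have h4 : ((π' m).2 : M) = 1 := by rw [MonoidHom.mem_ker.1 hm]; rfl
      refine ⟨r m, hD ?_, ?_⟩
      · exact h3
      · exact inv_mul_eq_one.1 h4
    have e1 : (D.map s).map π' = (D.map π).map (MonoidHom.inl Mb r.ker) := by
      rw [Subgroup.map_map, Subgroup.map_map]
      congr 1
      ext x
      · exact congrArg Prod.fst (hval x)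
      · exact congrArg (fun z : Mb × r.ker => (z.2 : M)) (hval x)
    have e2 : π' '' (s '' L) = MonoidHom.inl Mb r.ker '' (π '' L) := by
      rw [Set.image_image, Set.image_image]
      exact Set.image_congr fun x _ => hval x
    refine SC.step _ _ π' hs hD' ?_
    rw [e1, e2]
    exact h1

end H88.LB
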