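import Pool.Agent.H88.LB.Cls
import Pool.Agent.H88.LH.Cfm
import Pool.Agent.H51.HD.Fin

/-!
# [H88 LB FIN] MP_b39724_nt, LowerBound: the lower bound for the groups in the class `LC`

* `lc_low`: THE THEOREM. `hyp_sc`: the case of a hypercentral `T`.
-/

set_option autoImplicit false

open scoped NumberField
open IsDedekindDomain H38.ML
open scoped Classical

noncomputable section

namespace H88.LB

open H63.MA H38.BB H38.BG H77.PC3 H77.PLF H51.HD H51.HC H51.F3 H51.F4 H88.LH H35.SN H77.GN H77.AB H51.PF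

theorem ind_pow {n p j : ℕ} (hp : p.Prime) {y : Equiv.Perm (Fin n)} (hy : y ^ p = 1)
    (hj : ¬ p ∣ j) : ind (y ^ j) = ind y ∧ (y ≠ 1 → y ^ j ≠ 1) := by
  obtain ⟨a, ha⟩ : ∃ a : ℤ, (y ^ j) ^ a = y := by
    have hco : IsCoprime (p : ℤ) (j : ℤ) := by
      refine (Prime.coprime_iff_not_dvd (Nat.prime_iff_prime_int.1 hp)).2 fun h => hj ?_
      exact_mod_cast h
    obtain ⟨a, b, hab⟩ := hco
    refine ⟨b, ?_⟩
    have h6 : y ^ (a * (p : ℤ) + b * j) = y := by rw [hab, zpow_one]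
    rw [zpow_add, mul_comm a, zpow_mul, zpow_natCast, hy, one_zpow, one_mul, mul_comm,
      zpow_mul, zpow_natCast] at h6
    exact h6
  have h1 : Subgroup.zpowers (y ^ j) = Subgroup.zpowers y := by
    refine le_antisymm ?_ ?_
    · rw [Subgroup.zpowers_le]
      exact ⟨j, by simp⟩
    · rw [Subgroup.zpowers_le]
      exact ⟨a, ha⟩
  refine ⟨?_, fun hy1 h => hy1 ?_⟩
  · unfold ind
    rw [h1]
  · rw [← ha, h, one_zpow]

theorem lc_low (hA : ∀ p : ℕ, p.Prime → APm4 p) (hU : ∀ p : ℕ, p.Prime → APu3 p) (hst : STP)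
    (n : ℕ) (hn : 2 ≤ n) (G : Subgroup (Equiv.Perm (Fin n)))
    (hG : MulAction.IsPretransitive G (Fin n)) (p : ℕ) (hp : p.Prime)
    (hL : ∀ h : G, h ≠ 1 → Spec.ind (h : Equiv.Perm (Fin n)) = Spec.indG G → h ^ p = 1)
    (hC : LC p {h : G | h ≠ 1 ∧ Spec.ind (h : Equiv.Perm (Fin n)) = Spec.indG G}) :
    ∃ K₀ : IntermediateField ℚ (AlgebraicClosure ℚ), NumberField K₀ ∧
      ∀ K : IntermediateField ℚ (AlgebraicClosure ℚ), ∀ _ : NumberField K, K₀ ≤ K →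
        ∃ c B₀ : ℝ, 0 < c ∧ ∀ B : ℝ, B₀ ≤ B →
          ((⌈c * B ^ (1 / (Spec.indG G : ℝ)) *
            Real.log B ^ (Spec.betaAll K (AlgebraicClosure ℚ) G - 1)⌉₊ : ℕ) : ℕ∞) ≤
              Spec.nK K (AlgebraicClosure ℚ) G B := by
  obtain ⟨ha, ⟨g₀, hg₀, hg₀'⟩, hmin, hcj, hJ⟩ := pidx_pos hn G hG
  obtain ⟨N, g, hgΛ, uni, hI⟩ := ncl G {h : G | h ≠ 1 ∧ ind (h : Equiv.Perm (Fin n)) = indG G}
    (fun h hh => hh.1) (by
      rintro h ⟨h1, h2⟩ k hk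
      refine ⟨?_, ?_⟩
      · intro hk1
        rw [hk1] at hk
        exact h1 (isConj_one_left.1 hk)
      · obtain ⟨x, rfl⟩ := isConj_iff.1 hk
        exact hcj h x h1 h2)
  have hN : 1 ≤ N := by
    obtain ⟨i, -⟩ := (hI g₀).1 ⟨hg₀, hg₀'⟩
    exact Nat.one_le_iff_ne_zero.2 fun h => by
      subst h
      exact i.elim0
  obtain ⟨c, hc⟩ : ∃ c : CL p N G, c.g = g :=
    ⟨⟨g, fun i => hL _ (hgΛ i).1 (hgΛ i).2, fun i => (hgΛ i).1, uni⟩, rfl⟩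
  have hbase : BASE {h : G | h ≠ 1 ∧ Spec.ind (h : Equiv.Perm (Fin n)) = Spec.indG G} N := by
    refine lc_base hA hU hst hp hC N hN c ?_ ?_
    · ext h
      rw [hc]
      exact hI h
    · rintro x ⟨hx, hx2⟩ j hj
      have hxp : (x : Equiv.Perm (Fin n)) ^ p = 1 := by
        have h1 := congrArg Subtype.val (hL x hx hx2)
        exact h1
      obtain ⟨h1, h2⟩ := ind_pow hp hxp hj
      refine ⟨fun h => ?_, ?_⟩
      · refine h2 (fun h3 => hx (Subtype.ext h3)) ?_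
        have h4 := congrArg Subtype.val h
        exact h4
      · exact h1.trans hx2
  obtain ⟨K₁, hK₁, h⟩ := hbase
  obtain ⟨K₂, hK₂, h2⟩ := akn G
  have hK₁' : FiniteDimensional ℚ K₁ := hK₁.to_finiteDimensional
  have hK₂' : FiniteDimensional ℚ K₂ := hK₂.to_finiteDimensional
  have hfd' : FiniteDimensional ℚ ↥(K₁ ⊔ K₂) := IntermediateField.finiteDimensional_sup K₁ K₂
  refine ⟨K₁ ⊔ K₂, NumberField.of_module_finite ℚ _, fun K hK hle => ?_⟩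
  obtain ⟨-, ⟨z, hz⟩, -⟩ := h2 K (le_trans le_sup_right hle) hK
  obtain ⟨Q, S₀, S', c', Y₀, hc', h3, h4, h5, h6, h7⟩ := h K hK (le_trans le_sup_left hle) 0 ∅
  have hβ : Spec.betaAll K QBar G = N := lbet G K z hz g uni fun h => hI h
  rw [hβ]
  exact cfm hn G hG ha K Q S₀ S' _ (fun h hh => hh.2) N c' Y₀ hc' h7

/-- the hypercentral case -/
theorem hyp_sc (n : ℕ) (hn : 2 ≤ n) (G : Subgroup (Equiv.Perm (Fin n)))
    (hG : MulAction.IsPretransitive G (Fin n)) (k : ℕ)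
    (hk : Subgroup.closure {h : G | h ≠ 1 ∧ Spec.ind (h : Equiv.Perm (Fin n)) = Spec.indG G} ≤
      Subgroup.upperCentralSeries G k) :
    ∃ p : ℕ, p.Prime ∧
      (∀ h : G, h ≠ 1 → Spec.ind (h : Equiv.Perm (Fin n)) = Spec.indG G → h ^ p = 1) ∧
      SC p (Subgroup.closure {h : G | h ≠ 1 ∧ Spec.ind (h : Equiv.Perm (Fin n)) = Spec.indG G})
        {h : G | h ≠ 1 ∧ Spec.ind (h : Equiv.Perm (Fin n)) = Spec.indG G} := by
  obtain ⟨ha, ⟨g₀, hg₀, hg₀'⟩, hmin, hcj, hJ⟩ := pidx_pos hn G hG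
  obtain ⟨p, hpd⟩ : ∃ p, p = orderOf g₀ := ⟨_, rfl⟩
  have hp : p.Prime := by
    rw [hpd]
    exact H38.ML.prime_of_least G g₀ hg₀ hg₀'
  have : Fact p.Prime := ⟨hp⟩
  have hL : ∀ h ∈ Li G, h ^ p = 1 := fun h hh => by
    rw [hpd, trgz hn G hG k hk g₀ h ⟨hg₀, hg₀'⟩ hh]
    exact pow_orderOf_eq_one h
  exact ⟨p, hp, fun h h1 h2 => hL h ⟨h1, h2⟩, SC.base _ _ k hk (tz_pgroup G k hk hp hL)⟩

end H88.LB
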