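import Pool.Agent.H88.LB.Final

/-!
Malle's conjecture (question Q1): the lower bound of exactly the conjectured order of magnitude for transitive groups `G`, not necessarily
nilpotent or solvable, under conditions on the set `Lst G` of the elements of least index and on the subgroup `T` which they generate:
* `T` lies in a term of the upper central series of `G`;
* more generally the elements of least index have order dividing a prime `p` and `(G, Lst G)` is in the class `LC p`;
* `G` is a wreath product `G₁ ≀ H` with an arbitrary transitive `H`, and `G₁` has its elements of least index in a term of the upper central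
  series or is in the class `SC p`;
* `T` meets some term of the lower central series of `G` trivially (then over the fields which contain enough roots of unity and have `G` as
  a Galois group).
The definitions used in the statement are in `Pool/Agent/H38/ML/Spec.lean` and `Pool/Agent/H88/LB/Spec.lean`.
-/

open H38.ML.Spec H88.LB

theorem H88.LB.stg
    (n : ℕ) (hn : 2 ≤ n) (G : Subgroup (Equiv.Perm (Fin n)))
    (hG : MulAction.IsPretransitive G (Fin n)) :
    ((∃ j : ℕ, Subgroup.closure (Lst G) ≤ Subgroup.upperCentralSeries G j) → Low G) ∧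
    (∀ p : ℕ, p.Prime → (∀ h ∈ Lst G, h ^ p = 1) → LC p (Lst G) → Low G) ∧
    (∀ (m k : ℕ) (_ : 2 ≤ m) (_ : 0 < k) (e : Fin m × Fin k ≃ Fin n)
      (G₁ : Subgroup (Equiv.Perm (Fin m))) (_ : MulAction.IsPretransitive G₁ (Fin m))
      (H : Subgroup (Equiv.Perm (Fin k))) (_ : MulAction.IsPretransitive H (Fin k))
      (_ : IsWreath e G₁ H G)
      (_ : (∃ j : ℕ, Subgroup.closure (Lst G₁) ≤ Subgroup.upperCentralSeries G₁ j) ∨
        ∃ p : ℕ, p.Prime ∧ (∀ h ∈ Lst G₁, h ^ p = 1) ∧
          SC p (Subgroup.closure (Lst G₁)) (Lst G₁)), Low G) ∧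
    ((∃ j : ℕ, Subgroup.closure (Lst G) ⊓ (⊤ : Subgroup G).lowerCentralSeries j = ⊥) →
      ∃ m : ℕ, 0 < m ∧ ∀ K : IntermediateField ℚ (AlgebraicClosure ℚ), ∀ _ : NumberField K,
        (∃ z : K, IsPrimitiveRoot z m) → IsGaloisGroup K (AlgebraicClosure ℚ) G → LowK K G) :=
  ⟨(lowf n hn G hG).2.2.1, (lowf n hn G hG).1, (lowf n hn G hG).2.1, (lowf n hn G hG).2.2.2.1⟩
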